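import Pool.Agent.Q161.AbClosFin

/-!
# MP_fa9958_co, Q1: uncountably many minimal subshifts in abelian closures

Let `x` be a uniformly recurrent aperiodic binary word which is not Sturmian and has an irrational
uniform letter frequency. Then the abelian closure of `x` contains uncountably many minimal
subshifts.

Proof. Let `D(i)` be the discrepancy of the prefix of length `i`. If the window discrepancies are
unbounded, the words with counting functions `⌊l · ones + (1 - l) α i⌋`, `0 < l < 1`, lie in the
abelian closure, and the spread of the window counts of a minimal subshift in the orbit closure of
such a word recovers `l`. If they are bounded, let `bot` and `top` be the infimum and the supremum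
of `D`. If `top - bot ≤ 1` then `x` is Sturmian. Otherwise, for `s` near `top`, one folds the part
of the graph of `D` above `s` down by `1`; the folded words lie in the abelian closure, minimal
subshifts of two of them differ as soon as a value of `D` lies between the two parameters, and the
set of limits of values of `D` near `top` is uncountable since the values of `D` are dense
modulo `1`.
-/

namespace Pool.Agent.Results.MP_fa9958_co.UncountablyMany

open Pool.Agent.Q161.AbClos

theorem result (x : ℕ → Bool) (α : ℝ) (hx : UniformlyRecurrent x) (hap : Aperiodic x)
    (hst : ¬ Sturmian x) (hirr : Irrational α) (hα : UniformFrequency x α) :
    ¬ {M : Set (ℕ → Bool) | IsMinimalSubshift M ∧ M ⊆ AbClosure x}.Countable :=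
  main hx hap hst hirr hα

end Pool.Agent.Results.MP_fa9958_co.UncountablyMany
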